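import Mathlib
import Pool.Agent.H33.SkewDefs

namespace Pool.Agent.Results.MP_aa1485_co.Q1
open Pool.Agent.H33.Skew SimpleGraph Classical

variable {V : Type} [Fintype V] {G : SimpleGraph V}

omit [Fintype V] in
lemma par (hT : G.IsAcyclic) {r x y z : V} (ry : G.Reachable r y) (rz : G.Reachable r z)
    (hy : G.Adj x y) (hz : G.Adj x z) (h1 : G.dist r x = G.dist r y + 1)
    (h2 : G.dist r x = G.dist r z + 1) : y = z := by
  obtain ⟨p, hp⟩ := ry.exists_walk_length_eq_dist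
  obtain ⟨q, hq⟩ := rz.exists_walk_length_eq_dist
  have hp' : (p.concat hy.symm).IsPath :=
    Walk.isPath_of_length_eq_dist _ (by rw [Walk.length_concat, hp, h1])
  have hq' : (q.concat hz.symm).IsPath :=
    Walk.isPath_of_length_eq_dist _ (by rw [Walk.length_concat, hq, h2])
  have := Subtype.mk.inj ((hT.subsingleton_path r x).elim ⟨_, hp'⟩ ⟨_, hq'⟩)
  simpa using congrArg Walk.penultimate this

inductive X (G : SimpleGraph V) (c : V → V → V) (u : V) : V → Prop
  | root : X G c u u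
  | step {p v : V} : X G c u p → G.Adj v p → G.dist u v = G.dist u p + 1 → X G c u (c v p)

def W (G : SimpleGraph V) : Submodule (ZMod 2) (V → ZMod 2) where
  carrier := {x | ∀ v, ∑ w ∈ Finset.univ.filter (G.Adj v), x w = 0}
  add_mem' := fun hx hy v => by simp [Finset.sum_add_distrib, hx v, hy v]
  zero_mem' := by simp
  smul_mem' := fun c x hx v => by simp [← Finset.mul_sum, hx v]

lemma vec (hT : G.IsAcyclic) {F : Set V} (hF : Fort G F) {u : V} (hu : u ∈ F) :
    ∃ x ∈ W G, x u = 1 ∧ ∀ w, w ∉ F → x w = 0 := by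
  have : ∀ v p, ∃ w, p ∈ F → G.Adj v p → w ∈ F ∧ G.Adj v w ∧ w ≠ p := by
    intro v p
    by_contra h
    push Not at h
    refine hF.2 v (Set.ncard_eq_one.2 ⟨p, Set.eq_singleton_iff_unique_mem.2
      ⟨⟨(h p).2.1, (h p).1⟩, fun w hw => (h w).2.2 hw.2 hw.1⟩⟩)
  choose c hc using this
  have h1 : ∀ w, X G c u w → w ∈ F ∧ G.Reachable u w := by
    intro w hw
    induction hw with
    | root => exact ⟨hu, .refl _⟩
    | step _ ha _ ih =>
      exact ⟨(hc _ _ ih.1 ha).1, (ih.2.trans ha.symm.reachable).trans (hc _ _ ih.1 ha).2.1.reachable⟩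
  have h2 : ∀ v w, X G c u w → G.Adj v w → G.dist u v = G.dist u w + 1 ∨
      ∃ p, X G c u p ∧ G.Adj v p ∧ G.dist u v = G.dist u p + 1 ∧ w = c v p := by
    intro v w hw ha
    rcases hT.dist_eq_dist_add_one_of_adj_of_reachable u ha.symm (h1 w hw).2 with h | h
    · right
      cases hw with
      | root => simp at h
      | @step p v' hp ha' hd =>
        obtain ⟨a1, a2, a3⟩ := hc _ _ (h1 p hp).1 ha'
        have rv' := (h1 p hp).2.trans ha'.symm.reachable
        rcases hT.dist_eq_dist_add_one_of_adj_of_reachable u a2 rv' with h' | h'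
        · exact absurd (par hT (rv'.trans a2.reachable) (h1 p hp).2 a2 ha' h' hd) a3
        · obtain rfl := par hT ((rv'.trans a2.reachable).trans ha.symm.reachable) rv' ha.symm
            a2.symm h h'
          exact ⟨p, hp, ha', hd, rfl⟩
    · exact Or.inl h
  refine ⟨fun w => if X G c u w then 1 else 0, fun v => ?_, if_pos .root,
    fun w hw => if_neg fun h => hw (h1 w h).1⟩
  rw [← Finset.sum_filter]
  by_cases h : ∃ p, X G c u p ∧ G.Adj v p ∧ G.dist u v = G.dist u p + 1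
  · obtain ⟨p, hp, ha, hd⟩ := h
    obtain ⟨a1, a2, a3⟩ := hc _ _ (h1 p hp).1 ha
    have : (Finset.univ.filter (G.Adj v)).filter (X G c u) = {c v p, p} := by
      ext w
      simp only [Finset.mem_filter, Finset.mem_univ, true_and, Finset.mem_insert,
        Finset.mem_singleton]
      constructor
      · rintro ⟨b1, b2⟩
        rcases h2 v w b2 b1 with h | ⟨p', c1, c2, c3, rfl⟩
        · exact Or.inr (par hT (h1 w b2).2 (h1 p hp).2 b1 ha h hd)
        · rw [par hT (h1 p' c1).2 (h1 p hp).2 c2 ha c3 hd]; exact Or.inl rfl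
      · rintro (rfl | rfl)
        exacts [⟨a2, .step hp ha hd⟩, ⟨ha, hp⟩]
    rw [this, Finset.sum_pair a3]; rfl
  · refine Finset.sum_eq_zero fun w hw => (h ?_).elim
    simp only [Finset.mem_filter, Finset.mem_univ, true_and] at hw
    rcases h2 v w hw.2 hw.1 with h | ⟨p', c1, c2, c3, -⟩
    exacts [⟨w, hw.2, hw.1, h⟩, ⟨p', c1, c2, c3⟩]

lemma supp {x : V → ZMod 2} (hx : x ∈ W G) {u : V} (hu : x u ≠ 0) : Fort G {w | x w ≠ 0} := by
  refine ⟨⟨u, hu⟩, fun v h => ?_⟩
  obtain ⟨w, hw⟩ := Set.ncard_eq_one.1 h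
  obtain ⟨h1, h2⟩ := Set.eq_singleton_iff_unique_mem.1 hw
  have := hx v
  rw [Finset.sum_eq_single w (fun b hb hbw => by
    by_contra h0; exact hbw (h2 b ⟨(Finset.mem_filter.1 hb).2, h0⟩)) (fun h => (h (by
      simpa using h1.1)).elim)] at this
  exact h1.2 this

def Inj (G : SimpleGraph V) (S : Set V) : Prop := ∀ x ∈ W G, (∀ s ∈ S, x s = 0) → x = 0

lemma forcing_iff (hT : G.IsAcyclic) (S : Set V) : Forcing G S ↔ Inj G S := by
  constructor
  · intro h x hx hS
    funext v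
    induction h v with
    | base h => exact hS _ h
    | @force u w ha _ ih =>
      have := hx u
      rwa [Finset.sum_eq_single w (fun b hb hbw => ih b (Finset.mem_filter.1 hb).2 hbw)
        (fun h => (h (by simpa using ha)).elim)] at this
  · intro h v
    by_contra hv
    obtain ⟨x, hx, h1, h2⟩ := vec hT (F := {w | ¬ Blue G S w}) ⟨⟨v, hv⟩, fun u hu => by
      obtain ⟨w, hw⟩ := Set.ncard_eq_one.1 hu
      obtain ⟨h1, h2⟩ := Set.eq_singleton_iff_unique_mem.1 hw
      exact h1.2 (.force h1.1 fun y hy hyw => by_contra fun h0 => hyw (h2 y ⟨hy, h0⟩))⟩ hv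
    rw [h x hx fun s hs => h2 s (not_not.2 (.base hs))] at h1
    exact zero_ne_one h1

lemma ir_iff (hT : G.IsAcyclic) (S : Set V) :
    Ir G S ↔ ∀ u ∈ S, ∃ x ∈ W G, x u = 1 ∧ ∀ s ∈ S, s ≠ u → x s = 0 := by
  refine forall₂_congr fun u hu => ⟨fun ⟨F, hF, h⟩ => ?_, fun ⟨x, hx, h1, h2⟩ => ?_⟩
  · obtain ⟨h1, h2⟩ := Set.eq_singleton_iff_unique_mem.1 h
    obtain ⟨x, hx, a, b⟩ := vec hT hF h1.1
    exact ⟨x, hx, a, fun s hs hsu => b s fun h => hsu (h2 s ⟨h, hs⟩)⟩
  · have h0 : x u ≠ 0 := by rw [h1]; exact one_ne_zero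
    exact ⟨_, supp hx h0, Set.eq_singleton_iff_unique_mem.2
      ⟨⟨h0, hu⟩, fun s hs => by_contra fun h => hs.1 (h2 s hs.2 h)⟩⟩

lemma one {a : ZMod 2} (h : a ≠ 0) : a = 1 := by revert a; decide

lemma card (hT : G.IsAcyclic) {S : Set V} (h1 : Ir G S) (h2 : Forcing G S) :
    S.ncard = Module.finrank (ZMod 2) (W G) := by
  rw [ir_iff hT] at h1
  rw [forcing_iff hT] at h2
  choose x hx a b using h1
  let r : W G →ₗ[ZMod 2] (S → ZMod 2) :=
    { toFun := fun x s => x.1 s, map_add' := fun _ _ => rfl, map_smul' := fun _ _ => rfl }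
  have e := LinearEquiv.ofBijective r ⟨(injective_iff_map_eq_zero r).2 fun y hy =>
    Subtype.ext (h2 _ y.2 fun s hs => congrFun hy ⟨s, hs⟩), fun f =>
      ⟨∑ u : S, f u • ⟨x u u.2, hx u u.2⟩, funext fun s => by
        rw [map_sum, Finset.sum_apply, Finset.sum_eq_single s]
        · simp [r, a]
        · intro u _ hu
          simp [r, b u u.2 s s.2 fun h => hu (Subtype.ext h.symm)]
        · simp⟩⟩
  rw [e.finrank_eq]; simp [Set.ncard_eq_toFinset_card']

lemma maxi (hT : G.IsAcyclic) {S : Set V} (h : Maximal (Ir G) S) : Forcing G S := by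
  rw [forcing_iff hT]
  intro x hx hS
  funext v
  by_contra hv
  have hv1 := one hv
  refine hv (hS v (h.2 (y := insert v S) ?_ (Set.subset_insert _ _) (Set.mem_insert _ _)))
  rw [ir_iff hT]
  intro u hu
  by_cases huv : u = v
  · exact ⟨x, hx, huv ▸ hv1, fun s hs h => hS s (hs.resolve_left (huv ▸ h))⟩
  · have hu' := hu.resolve_left huv
    obtain ⟨y, hy, a, b⟩ := (ir_iff hT S).1 h.1 u hu'
    refine ⟨y - y v • x, sub_mem hy (Submodule.smul_mem _ _ hx), by simp [a, hS u hu'], ?_⟩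
    rintro s (rfl | hs) h
    · simp [hv1]
    · simp [b s hs h, hS s hs]

lemma mini (hT : G.IsAcyclic) {S : Set V} (h : Minimal (Forcing G) S) : Ir G S := by
  rw [ir_iff hT]
  intro u hu
  by_contra h0
  refine (h.2 (y := S \ {u}) ?_ Set.diff_subset hu).2 rfl
  rw [forcing_iff hT]
  intro x hx hS
  refine (forcing_iff hT S).1 h.1 x hx fun s hs => by_contra fun h1 => ?_
  by_cases e : s = u
  · exact h0 ⟨x, hx, e ▸ one h1, fun s hs h => hS s ⟨hs, h⟩⟩
  · exact h1 (hS s ⟨hs, e⟩)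

theorem result (V : Type) [Fintype V] (G : SimpleGraph V) (hT : G.IsAcyclic) :
    zir G = Z G ∧ Z G = Zbar G ∧ Zbar G = ZIR G := by
  obtain ⟨S, -, hS⟩ := Finite.exists_le_maximal (p := Ir G) (a := ∅) (by simp [Ir])
  set d := Module.finrank (ZMod 2) (W G)
  have e1 : {n | ∃ S, Maximal (Ir G) S ∧ S.ncard = n} = {d} := Set.eq_singleton_iff_unique_mem.2
    ⟨⟨S, hS, card hT hS.1 (maxi hT hS)⟩, fun _ ⟨T, h, e⟩ => e ▸ card hT h.1 (maxi hT h)⟩
  obtain ⟨S', -, hS'⟩ := Finite.exists_le_minimal (maxi hT hS)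
  have e2 : {n | ∃ S, Minimal (Forcing G) S ∧ S.ncard = n} = {d} :=
    Set.eq_singleton_iff_unique_mem.2
      ⟨⟨S', hS', card hT (mini hT hS') hS'.1⟩, fun _ ⟨T, h, e⟩ => e ▸ card hT (mini hT h) h.1⟩
  have e3 : Z G = d := by
    refine IsLeast.csInf_eq ⟨⟨S', hS'.1, card hT (mini hT hS') hS'.1⟩, ?_⟩
    rintro _ ⟨T, h, rfl⟩
    obtain ⟨T', h1, h2⟩ := Finite.exists_le_minimal h
    exact (card hT (mini hT h2) h2.1).ge.trans (Set.ncard_le_ncard h1)
  simp [zir, Zbar, ZIR, e1, e2, e3]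

end Pool.Agent.Results.MP_aa1485_co.Q1
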